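import Pool.Agent.Lib.MP_da5f1d_gt.Counter

set_option autoImplicit false

namespace Pool.Agent.Results.MP_da5f1d_gt.CHCounterexample

/-- Under the continuum hypothesis the Brown-Cox question has a negative answer. -/
theorem result (hCH : Cardinal.mk ℝ = Cardinal.aleph 1) :
    ¬ (∀ X : Set ℝ,
      (∀ Y : Set ℝ, Y ⊆ X →
        ∃ C : Set ℝ, C ⊆ Y ∧ C.Countable ∧
          ∀ U : Set ℝ, IsOpen U → C ⊆ U → (Y \ U).Countable) →
      ∃ Z : Set ℝ,
        (∀ Y : Set Z, IsNowhereDense Y → Y.Countable) ∧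
        ∃ f : ℝ → ℝ, ContinuousOn f Z ∧ f '' Z = X) := by
  intro h
  obtain ⟨X, h1, h2⟩ := Pool.Agent.Lib.MP_da5f1d_gt.counter_of_CH hCH
  exact h2 (h X h1)

end Pool.Agent.Results.MP_da5f1d_gt.CHCounterexample
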