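import Mathlib
import Pool.Agent.Lib.MP_053343_lc.Defs
import Pool.Agent.Lib.MP_da5f1d_gt.ModelDefs
import Pool.Agent.Lib.MP_da5f1d_gt.NegModel
import Pool.Agent.Lib.MP_da5f1d_gt.PosModel

/-!
The Brown-Cox statement is independent of ZFC: it holds in one transitive model of ZFC and
fails in another.
-/

set_option autoImplicit false

namespace Pool.Agent.Results.MP_da5f1d_gt.Independence

open Pool.Agent.Lib.MP_053343_lc Pool.Agent.Lib.MP_da5f1d_gt

theorem result :
    (∃ M : ZFSet.{0}, ModelZF M ∧ AC M ∧ BrownCoxIn M) ∧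
    (∃ M : ZFSet.{0}, ModelZF M ∧ AC M ∧ ¬ BrownCoxIn M) :=
  ⟨exists_model_pos, exists_model_neg⟩

end Pool.Agent.Results.MP_da5f1d_gt.Independence
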